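import Pool.Agent.H18.Shp3
import Pool.Agent.H18.ShpDefs

namespace Pool.Agent.Results.MP_e24151_co.Half

open Finset Filter Pool.Agent.H18.Shp1 Pool.Agent.H18.Shp3 Pool.Agent.H18.ShpDefs

lemma inv_lim : Tendsto (fun N : ℕ => (1 : ℝ) / (2 * N + 1)) atTop (nhds 0) := by
  apply Tendsto.div_atTop tendsto_const_nhds
  apply tendsto_atTop_add_const_right
  exact Tendsto.const_mul_atTop (by norm_num) tendsto_natCast_atTop_atTop

lemma dens_per {f : ℤ → Bool} {N : ℕ} (hN : 0 < N) (hp : ∀ i, f (i + N) = f i) :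
    HasDensity f (cnt f N / N) := by
  unfold HasDensity
  simp only [sum_Icc]
  have hN' : (0 : ℝ) < N := by positivity
  rw [tendsto_iff_norm_sub_tendsto_zero]
  have lim : Tendsto (fun n : ℕ => (N : ℝ) * (1 / (2 * n + 1))) atTop (nhds 0) := by
    simpa using inv_lim.const_mul (N : ℝ)
  refine squeeze_zero (fun _ => norm_nonneg _) (fun n => ?_) lim
  have h := G_approx hN hp (2 * n + 1) (-n)
  have h' : |(N : ℝ) * G f (-n) (2 * n + 1) - (2 * n + 1) * cnt f N| ≤ N * N := by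
    exact_mod_cast h
  have hL : (0 : ℝ) < 2 * n + 1 := by positivity
  have e : (G f (-n) (2 * n + 1) : ℝ) / (2 * n + 1) - cnt f N / N =
      ((N : ℝ) * G f (-n) (2 * n + 1) - (2 * n + 1) * cnt f N) / (N * (2 * n + 1)) := by
    field_simp
  rw [Real.norm_eq_abs, e, abs_div, abs_of_pos (mul_pos hN' hL), div_le_iff₀ (mul_pos hN' hL)]
  have e2 : (N : ℝ) * (1 / (2 * n + 1)) * (N * (2 * n + 1)) = N * N := by field_simp
  rw [e2]; exact h'

lemma dens_nonneg {x : ℤ → Bool} {r : ℝ} (h : HasDensity x r) : 0 ≤ r := by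
  refine ge_of_tendsto' h (fun n => div_nonneg (Finset.sum_nonneg fun i _ => ?_) (by positivity))
  split_ifs <;> norm_num

lemma hits_iff (f : ℤ → Bool) (S : Ship 3) :
    Hits f S ↔ Hit f (S.1 1 - S.1 0) (S.1 2 - S.1 1) := by
  constructor
  · intro h t
    obtain ⟨j, hj⟩ := h (t - S.1 0)
    have e0 : t - S.1 0 + S.1 0 = t := by ring
    have e1 : t - S.1 0 + S.1 1 = t + (S.1 1 - S.1 0) := by ring
    have e2 : t - S.1 0 + S.1 2 = t + (S.1 1 - S.1 0) + (S.1 2 - S.1 1) := by ring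
    have hj3 : j = 0 ∨ j = 1 ∨ j = 2 := by clear hj; revert j; decide
    rcases hj3 with rfl | rfl | rfl
    · rw [e0] at hj; tauto
    · rw [e1] at hj; tauto
    · rw [e2] at hj; tauto
  · intro h t
    have e1 : t + S.1 0 + (S.1 1 - S.1 0) = t + S.1 1 := by ring
    have e2 : t + S.1 1 + (S.1 2 - S.1 1) = t + S.1 2 := by ring
    have h1 := h (t + S.1 0)
    rw [e1, e2] at h1
    rcases h1 with h1 | h1 | h1
    exacts [⟨0, h1⟩, ⟨1, h1⟩, ⟨2, h1⟩]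

lemma exists_pattern (F : Fin 2 → Ship 3) :
    ∃ x r, r ≤ 1 / 2 ∧ HasDensity x r ∧ ∀ i, Hits x (F i) := by
  have p : ∀ i, 0 < (F i).1 1 - (F i).1 0 ∧ 0 < (F i).1 2 - (F i).1 1 := fun i =>
    ⟨sub_pos.mpr ((F i).2 (by decide)), sub_pos.mpr ((F i).2 (by decide))⟩
  obtain ⟨N, f, h1, h2, h3, h4, h5⟩ := all ((F 0).1 1 - (F 0).1 0).toNat _ _ _ _
    (p 0).1 (p 0).2 (p 1).1 (p 1).2 (Int.self_le_toNat _)
  refine ⟨f, _, ?_, dens_per h1 h2, ?_⟩
  · have hN' : (0 : ℝ) < N := by positivity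
    have h3' : 2 * (cnt f N : ℝ) ≤ N := by exact_mod_cast h3
    rw [div_le_iff₀ hN']; linarith
  · rw [Fin.forall_fin_two]
    exact ⟨(hits_iff _ _).mpr h4, (hits_iff _ _).mpr h5⟩

lemma upper (F : Fin 2 → Ship 3) : piF F ≤ 1 / 2 := by
  obtain ⟨x, r, h1, h2, h3⟩ := exists_pattern F
  refine le_trans (csInf_le ⟨0, ?_⟩ ?_) h1
  · rintro s ⟨_, hs, _⟩
    exact dens_nonneg hs
  · exact ⟨x, h2, h3⟩

def S012 : Ship 3 := ⟨![0, 1, 2], by decide⟩
def S013 : Ship 3 := ⟨![0, 1, 3], by decide⟩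

lemma lower : 1 / 2 ≤ piF ![S012, S013] := by
  obtain ⟨x, r, -, h2, h3⟩ := exists_pattern ![S012, S013]
  refine le_csInf ⟨r, x, h2, h3⟩ ?_
  rintro s ⟨f, hs, hf⟩
  have a1 : Hit f 1 1 := (hits_iff f S012).mp (hf 0)
  have a2 : Hit f 1 2 := (hits_iff f S013).mp (hf 1)
  have lim : Tendsto (fun n : ℕ => (1 : ℝ) / 2 - 1 / (2 * n + 1)) atTop (nhds (1 / 2)) := by
    simpa using inv_lim.const_sub (1 / 2 : ℝ)
  refine le_of_tendsto_of_tendsto' lim hs (fun n => ?_)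
  rw [sum_Icc]
  have h := G_low a1 a2 (-n) (2 * n + 1)
  have h' : (2 * n + 1 : ℝ) ≤ 2 * G f (-n) (2 * n + 1) + 2 := by exact_mod_cast h
  have hL : (0 : ℝ) < 2 * n + 1 := by positivity
  rw [le_div_iff₀ hL]
  have e : ((1 : ℝ) / 2 - 1 / (2 * n + 1)) * (2 * n + 1) = (2 * n + 1) / 2 - 1 := by field_simp
  rw [e]; linarith

theorem result : M 2 3 = 1 / 2 ∧
    (∀ F : Fin 2 → Ship 3, ∃ x r, r ≤ 1 / 2 ∧ HasDensity x r ∧ ∀ i, Hits x (F i)) ∧
    ∃ F : Fin 2 → Ship 3, piF F = 1 / 2 := by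
  have h : piF ![S012, S013] = 1 / 2 := le_antisymm (upper _) lower
  refine ⟨IsGreatest.csSup_eq ⟨⟨_, h⟩, ?_⟩, exists_pattern, _, h⟩
  rintro _ ⟨F, rfl⟩
  exact upper F

end Pool.Agent.Results.MP_e24151_co.Half
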